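import Pool.Agent.Helper21.LQ.Defs

set_option autoImplicit false

/-!
# LQ, module TPRE: the first phase for all stars of type P

All stars of type P, sorted by `hh`, are treated by the random phase `ST_PHASE` with the choice
`ST_PRE`.
-/

namespace Pool.Agent.Helper21.LQ

open Finset

theorem tp_order {T : Type} [Fintype T] [DecidableEq T] (H : T → ℕ) (P : Finset T) :
    ∃ (u : ℕ → Option T) (pos : T → ℕ), (∀ t ∈ P, pos t < P.card ∧ u (pos t) = some t) ∧
      (∀ j < P.card, ∃ t ∈ P, u j = some t ∧ pos t = j) ∧ (∀ j, P.card ≤ j → u j = none) ∧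
      ∀ s ∈ P, ∀ t ∈ P, pos s ≤ pos t → H s ≤ H t := by
  classical
  let e : P ≃ Fin P.card := P.equivFin
  let f : Fin P.card → ℕ := fun i => H (e.symm i).1
  let σ := Tuple.sort f
  have hmono : Monotone (f ∘ σ) := Tuple.monotone_sort f
  refine ⟨fun j => if h : j < P.card then some (e.symm (σ ⟨j, h⟩)).1 else none,
    fun t => if h : t ∈ P then (σ.symm (e ⟨t, h⟩)).1 else 0, ?_, ?_, ?_, ?_⟩
  · intro t ht
    simp only [ht, dif_pos]
    refine ⟨(σ.symm (e ⟨t, ht⟩)).2, ?_⟩
    rw [dif_pos (σ.symm (e ⟨t, ht⟩)).2]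
    simp
  · intro j hj
    refine ⟨(e.symm (σ ⟨j, hj⟩)).1, (e.symm (σ ⟨j, hj⟩)).2, ?_, ?_⟩
    · simp [hj]
    · have hm : (e.symm (σ ⟨j, hj⟩)).1 ∈ P := (e.symm (σ ⟨j, hj⟩)).2
      simp only [hm, dif_pos]
      simp
  · intro j hj
    simp [not_lt.mpr hj]
  · intro s hs t ht hst
    simp only [hs, ht, dif_pos] at hst
    have h1 := hmono (show σ.symm (e ⟨s, hs⟩) ≤ σ.symm (e ⟨t, ht⟩) from hst)
    simpa [f] using h1

theorem tp_hh_pos {R Γ : Type} [Fintype R] [DecidableEq R] [Fintype Γ] [DecidableEq Γ]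
    {ε : ℝ} {N : Finset R} {D : ℕ} {L : R → Finset Γ} (h : 0 < hh ε N D L) : IsP ε N D L := by
  unfold hh at h
  split_ifs at h with h1
  · exact h1
  · exact absurd h (lt_irrefl 0)

theorem tp_sum_order {T : Type} [DecidableEq T] (P : Finset T)
    (u : ℕ → Option T) (pos : T → ℕ) (h1 : ∀ t ∈ P, pos t < P.card ∧ u (pos t) = some t)
    (h2 : ∀ j < P.card, ∃ t ∈ P, u j = some t ∧ pos t = j) (G : Option T → ℝ) :
    ∑ j ∈ range P.card, G (u j) = ∑ t ∈ P, G (some t) := by
  symm
  refine Finset.sum_nbij pos ?_ ?_ ?_ ?_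
  · intro t ht
    exact Finset.mem_range.mpr (h1 t ht).1
  · intro s hs t ht hst
    have := (h1 s hs).2
    rw [hst, (h1 t ht).2] at this
    exact (Option.some_injective _ this).symm
  · intro j hj
    obtain ⟨t, ht, _, hp⟩ := h2 j (Finset.mem_range.mp (by simpa using hj))
    exact ⟨t, by simpa using ht, hp⟩
  · intro t ht
    rw [(h1 t ht).2]

/-- row statistic -/
noncomputable def tp_row {R T Γ : Type} [DecidableEq R] [DecidableEq Γ] (N : T → Finset R)
    (L : T → R → Finset Γ) (t : T) (r₀ : R) : R → Γ → ℝ :=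
  fun r γ => if r = r₀ ∧ r ∈ N t ∧ γ ∈ L t r then 1 else 0

/-- column statistic -/
noncomputable def tp_col {R T Γ : Type} [DecidableEq R] [DecidableEq Γ] (N : T → Finset R)
    (L : T → R → Finset Γ) (t : T) (γ₀ : Γ) : R → Γ → ℝ :=
  fun r γ => if γ = γ₀ ∧ r ∈ N t ∧ γ ∈ L t r then 1 else 0

/-- statistic of the reserved colours -/
noncomputable def tp_res {R T Γ : Type} [DecidableEq R] [DecidableEq Γ] (N : T → Finset R)
    (L₀ : T → R → Finset Γ) (H : T → ℕ) (t : T) : R → Γ → ℝ :=
  fun r γ => if r ∈ N t ∧ γ ∈ L₀ t r then 1 / (H t : ℝ) else 0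

section
variable {R T Γ : Type} [Fintype R] [DecidableEq R] [Fintype Γ] [DecidableEq Γ]
  (N : T → Finset R) (L L₀ : T → R → Finset Γ) (H : T → ℕ)

theorem tp_lin_row (t : T) (r₀ : R) (h : r₀ ∈ N t) (X : R → Γ → ℝ) :
    lin (tp_row N L t r₀) X = ∑ γ ∈ L t r₀, X r₀ γ := by
  unfold lin tp_row
  rw [Finset.sum_eq_single r₀]
  · simp only [true_and, h, ite_mul, one_mul, zero_mul]
    rw [← Finset.sum_filter]
    congr 1
    ext γ
    simp
  · intro r _ hr
    simp [hr]
  · intro hr
    exact absurd (Finset.mem_univ _) hr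

theorem tp_lin_col (t : T) (γ₀ : Γ) (X : R → Γ → ℝ) :
    lin (tp_col N L t γ₀) X = colS (N t) (L t) X γ₀ := by
  unfold lin tp_col colS
  rw [Finset.sum_comm, Finset.sum_eq_single γ₀]
  · simp only [true_and, ite_mul, one_mul, zero_mul]
    rw [← Finset.sum_filter]
    congr 1
    ext r
    simp
  · intro γ _ hr
    simp [hr]
  · intro hr
    exact absurd (Finset.mem_univ _) hr

theorem tp_lin_res (t : T) (X : R → Γ → ℝ) :
    lin (tp_res N L₀ H t) X = (1 / (H t : ℝ)) * ∑ r ∈ N t, ∑ γ ∈ L₀ t r, X r γ := by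
  unfold lin tp_res
  rw [Finset.mul_sum, ← Finset.sum_filter_add_sum_filter_not univ (fun r => r ∈ N t)]
  have h0 : ∑ r ∈ univ.filter (fun r => ¬ r ∈ N t),
      ∑ γ, (if r ∈ N t ∧ γ ∈ L₀ t r then 1 / (H t : ℝ) else 0) * X r γ = 0 := by
    refine Finset.sum_eq_zero fun r hr => ?_
    rw [Finset.mem_filter] at hr
    simp [hr.2]
  rw [h0, add_zero]
  have hf : univ.filter (fun r => r ∈ N t) = N t := by
    ext r; simp
  rw [hf]
  refine Finset.sum_congr rfl fun r hr => ?_
  rw [Finset.mul_sum]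
  simp only [hr, true_and, ite_mul, zero_mul]
  rw [← Finset.sum_filter]
  congr 1
  ext γ
  simp

omit [DecidableEq R] [DecidableEq Γ] in
theorem tp_lin_one (a : R → Γ → ℝ) : lin a (fun _ _ => 1) = ∑ r, ∑ γ, a r γ := by
  unfold lin
  simp

theorem tp_row_one (t : T) (r₀ : R) (f : R → Option Γ) :
    ∑ r, ∑ γ, (if f r = some γ then tp_row N L t r₀ r γ else 0) ≤ 1 := by
  have h1 : ∀ r, r ≠ r₀ → ∑ γ, (if f r = some γ then tp_row N L t r₀ r γ else 0) = 0 := by
    intro r hr
    refine Finset.sum_eq_zero fun γ _ => ?_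
    simp [tp_row, hr]
  rw [Finset.sum_eq_single r₀ (fun r _ hr => h1 r hr) (fun h => absurd (Finset.mem_univ _) h)]
  cases hf : f r₀ with
  | none => simp
  | some γ₀ =>
    rw [Finset.sum_eq_single γ₀]
    · simp only [if_true, tp_row]
      split_ifs <;> norm_num
    · intro γ _ hγ
      rw [if_neg]
      intro h
      exact hγ (Option.some_injective _ h).symm
    · intro h
      exact absurd (Finset.mem_univ _) h

theorem tp_col_one (t : T) (γ₀ : Γ) (f : R → Option Γ) (hf : Inj f) :
    ∑ r, ∑ γ, (if f r = some γ then tp_col N L t γ₀ r γ else 0) ≤ 1 := by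
  rw [Finset.sum_comm]
  have h1 : ∀ γ, γ ≠ γ₀ → ∑ r, (if f r = some γ then tp_col N L t γ₀ r γ else 0) = 0 := by
    intro γ hr
    refine Finset.sum_eq_zero fun r _ => ?_
    simp [tp_col, hr]
  rw [Finset.sum_eq_single γ₀ (fun r _ hr => h1 r hr) (fun h => absurd (Finset.mem_univ _) h)]
  by_cases hex : ∃ r, f r = some γ₀
  · obtain ⟨r₀, hr₀⟩ := hex
    rw [Finset.sum_eq_single r₀]
    · simp only [hr₀, if_true, tp_col]
      split_ifs <;> norm_num
    · intro r _ hr
      rw [if_neg]
      intro h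
      exact hr (hf r r₀ γ₀ h hr₀)
    · intro h
      exact absurd (Finset.mem_univ _) h
  · have hex' : ∀ r, f r ≠ some γ₀ := fun r h => hex ⟨r, h⟩
    simp [hex']

theorem tp_res_one (t : T) (f : R → Option Γ)
    (hc : (univ.filter (fun r => f r ≠ none)).card ≤ H t) (hH : 0 < H t) :
    ∑ r, ∑ γ, (if f r = some γ then tp_res N L₀ H t r γ else 0) ≤ 1 := by
  have hH' : (0 : ℝ) < H t := by exact_mod_cast hH
  have h1 : ∀ r, ∑ γ, (if f r = some γ then tp_res N L₀ H t r γ else 0) ≤
      if f r ≠ none then 1 / (H t : ℝ) else 0 := by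
    intro r
    cases hf : f r with
    | none => simp
    | some γ₀ =>
      rw [Finset.sum_eq_single γ₀]
      · simp only [if_true, tp_res, ne_eq, reduceCtorEq, not_false_eq_true]
        split_ifs
        · exact le_refl _
        · positivity
      · intro γ _ hγ
        rw [if_neg]
        intro h
        exact hγ (Option.some_injective _ h).symm
      · intro h
        exact absurd (Finset.mem_univ _) h
  refine (Finset.sum_le_sum fun r _ => h1 r).trans ?_
  rw [← Finset.sum_filter, Finset.sum_const, nsmul_eq_mul]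
  have h2 : ((univ.filter (fun r => f r ≠ none)).card : ℝ) ≤ H t := by exact_mod_cast hc
  calc ((univ.filter (fun r => f r ≠ none)).card : ℝ) * (1 / (H t : ℝ))
      ≤ (H t : ℝ) * (1 / (H t : ℝ)) := by
        apply mul_le_mul_of_nonneg_right h2; positivity
    _ = 1 := by field_simp

end

theorem tp_large {ε LN s : ℝ} (h0 : 0 < ε) (hL : 1 ≤ LN) (h : 2 ^ 153 * LN ≤ ε ^ 25 * s) :
    4000 * (2 / ε) ^ 5 * LN ≤ dl ε ^ 2 * s := by
  unfold dl
  have h5 : 0 < ε ^ 5 := by positivity
  have e1 : 4000 * (2 / ε) ^ 5 * LN = (128000 * LN) / ε ^ 5 := by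
    field_simp
    ring
  have e2 : (ε ^ 10 / 2 ^ 68) ^ 2 * s = (ε ^ 25 * s / 2 ^ 136) / ε ^ 5 := by
    field_simp
  rw [e1, e2]
  apply div_le_div_of_nonneg_right _ h5.le
  rw [le_div_iff₀ (by positivity)]
  refine le_trans ?_ h
  nlinarith [hL]

theorem tp_D {ε LN s : ℝ} (h0 : 0 < ε) (h1 : ε ≤ 1) (hL : 1 ≤ LN)
    (h : 2 ^ 153 * LN ≤ ε ^ 25 * s) : 4 * (2 / ε) ≤ s := by
  have h25 : 0 < ε ^ 25 := by positivity
  have hs : 2 ^ 153 / ε ^ 25 ≤ s := by
    rw [div_le_iff₀ h25]
    nlinarith
  refine le_trans ?_ hs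
  have e1 : 4 * (2 / ε) = (8 * ε ^ 24) / ε ^ 25 := by
    field_simp
    ring
  rw [e1]
  apply div_le_div_of_nonneg_right _ h25.le
  have : ε ^ 24 ≤ 1 := pow_le_one₀ h0.le h1
  nlinarith

theorem tp_12 {ε LN s : ℝ} (h0 : 0 < ε) (h1 : ε ≤ 1) (hL : 1 ≤ LN) (hs : 0 ≤ s)
    (h : 2 ^ 153 * LN ≤ ε ^ 25 * s) : 2 ^ 70 ≤ ε ^ 12 * s := by
  have h2 : ε ^ 25 * s ≤ ε ^ 12 * s := by
    apply mul_le_mul_of_nonneg_right _ hs
    exact pow_le_pow_of_le_one h0.le h1 (by norm_num)
  nlinarith

theorem st_TPRE (hPHASE : ST_PHASE) (hPRE : ST_PRE) : ST_TPRE := by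
  intro R T Γ I W _ _ _ _ _ _ _ _ ε LN N D L a sI v w K sW L₀ hd hL₀ hL₀c
  classical
  have hε := hd.pos
  have hε1 := hd.le_one
  have hLN := hd.one_le
  set H : T → ℕ := fun t => hh ε (N t) (D t) (L t) with hH
  set P : Finset T := univ.filter (fun t => 0 < H t) with hP
  have hPmem : ∀ t, t ∈ P ↔ 0 < H t := by intro t; simp [hP]
  obtain ⟨u, pos, hu1, hu2, hu3, hu4⟩ := tp_order H P
  have hDpos : ∀ t, (0 : ℝ) < D t := by
    intro t
    have h1 := tp_D hε hε1 hLN (hd.large t)
    have h2 : 0 < 4 * (2 / ε) := by positivity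
    linarith
  have hdl0 : 0 < dl ε := by unfold dl; positivity
  have hdl1 : dl ε ≤ 1 := by
    unfold dl
    have : ε ^ 10 ≤ 1 := pow_le_one₀ hε.le hε1
    rw [div_le_one (by positivity)]
    exact this.trans (by norm_num)
  -- the data of the phase
  let D' : ℕ → ℝ := fun j => (u j).elim 1 (fun t => (D t : ℝ))
  let N' : ℕ → Finset R := fun j => (u j).elim ∅ N
  let C' : ℕ → R → Finset Γ := fun j r => (u j).elim ∅ (fun t => if r ∈ N t then L₀ t r else ∅)
  let Good : ℕ → (R → Option Γ) → Prop := fun j f =>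
    ∀ t, u j = some t → (univ.filter (fun r => f r ≠ none)).card = H t
  let a' : (I ⊕ (T × R) ⊕ (T × Γ) ⊕ T) → R → Γ → ℝ := fun i => match i with
    | Sum.inl i => a i
    | Sum.inr (Sum.inl q) => tp_row N L q.1 q.2
    | Sum.inr (Sum.inr (Sum.inl q)) => tp_col N L q.1 q.2
    | Sum.inr (Sum.inr (Sum.inr t)) => tp_res N L₀ H t
  let s' : (I ⊕ (T × R) ⊕ (T × Γ) ⊕ T) → ℝ := fun i => match i with
    | Sum.inl i => sI i
    | Sum.inr (Sum.inl q) => D q.1
    | Sum.inr (Sum.inr (Sum.inl q)) => D q.1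
    | Sum.inr (Sum.inr (Sum.inr t)) => D t
  let e' : (I ⊕ (T × R) ⊕ (T × Γ) ⊕ T) → ℕ := fun i => match i with
    | Sum.inl _ => P.card
    | Sum.inr (Sum.inl _) => P.card
    | Sum.inr (Sum.inr (Sum.inl _)) => P.card
    | Sum.inr (Sum.inr (Sum.inr t)) => if t ∈ P then pos t else 0
  let Q := {q : T × Γ × Γ // q.2.1 ≠ q.2.2}
  let NQ : Q → Finset R := fun q =>
    (N q.1.1).filter (fun r => q.1.2.1 ∈ L q.1.1 r ∧ q.1.2.2 ∈ L q.1.1 r)
  have hsumP : ∀ G : Option T → ℝ, ∑ j ∈ range P.card, G (u j) = ∑ t ∈ P, G (some t) :=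
    fun G => tp_sum_order P u pos hu1 hu2 G
  -- the sum over the tasks is at most the sum over all stars
  have hsumle : ∀ (A : T → Prop) [DecidablePred A], ∑ t ∈ P, (if A t then 1 / (D t : ℝ) else 0) ≤
      ∑ t, (if A t then 1 / (D t : ℝ) else 0) := by
    intro A _
    refine Finset.sum_le_sum_of_subset_of_nonneg (Finset.subset_univ _) fun t _ _ => ?_
    have := (hDpos t).le
    split_ifs <;> positivity
  have hrow1 : ∀ r, ∑ j ∈ range P.card, (if r ∈ N' j then 1 / D' j else 0) ≤
      ∑ t, (if r ∈ N t then 1 / (D t : ℝ) else 0) := by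
    intro r
    have := hsumP (fun o => if r ∈ o.elim ∅ N then 1 / o.elim 1 (fun t => (D t : ℝ)) else 0)
    refine (le_of_eq this).trans ?_
    exact hsumle (fun t => r ∈ N t)
  have hC1 : ∀ r γ, ∑ j ∈ range P.card, (if γ ∈ C' j r then 1 / D' j else 0) ≤
      ∑ t, (if r ∈ N t ∧ γ ∈ L₀ t r then 1 / (D t : ℝ) else 0) := by
    intro r γ
    have := hsumP (fun o => if γ ∈ o.elim ∅ (fun t => if r ∈ N t then L₀ t r else ∅) then
      1 / o.elim 1 (fun t => (D t : ℝ)) else 0)
    refine (le_of_eq this).trans ?_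
    refine le_trans (le_of_eq ?_) (hsumle (fun t => r ∈ N t ∧ γ ∈ L₀ t r))
    refine Finset.sum_congr rfl fun t _ => ?_
    simp only [Option.elim_some]
    by_cases h1 : r ∈ N t <;> simp [h1]
  have hslack : ∀ r γ, ∑ t, (if r ∈ N t ∧ γ ∈ L₀ t r then 1 / (D t : ℝ) else 0) ≤ 1 - ε := by
    intro r γ
    refine le_trans (Finset.sum_le_sum fun t _ => ?_) (hd.slack r)
    have := (hDpos t).le
    by_cases h1 : r ∈ N t
    · simp only [h1, true_and, if_true]
      split_ifs
      · exact le_refl _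
      · positivity
    · simp [h1]
  have key := hPHASE R Γ (I ⊕ (T × R) ⊕ (T × Γ) ⊕ T) Q W P.card D' N' C' Good (fun _ _ => 1)
    (fun _ _ => 1) (1 + ε / 4) (2 / ε) (dl ε) LN a' s' e' NQ (fun q => q.1.2.1)
    (fun q => q.1.2.2) (fun q => (D q.1.1 : ℝ)) v w K sW
    (by rw [le_div_iff₀ hε]; linarith) (by linarith) (by linarith) hdl0 hdl1 hLN
    ?_ ?_ ?_ ?_ ?_ ?_ ?_ ?_ ?_ ?_ ?_ ?_ ?_ hd.ne hd.K_card
    (fun i => tp_large hε hLN (hd.sW_large i)) ?_
  · obtain ⟨f, X, hf1, hf2, hf3, _, hX, hlin, hcov, hedg⟩ := key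
    refine ⟨fun t => if t ∈ P then f (pos t) else fun _ => none, X, ?_, ?_, ?_, ?_, ?_, ?_, ?_,
      ?_, ?_, ?_⟩
    · intro t
      by_cases ht : t ∈ P
      · simp only [ht, if_true]
        exact (hf1 _ (hu1 t ht).1).1 t (hu1 t ht).2
      · simp only [ht, if_false]
        have h0 : H t = 0 := by
          by_contra h
          exact ht ((hPmem t).2 (Nat.pos_of_ne_zero h))
        have h0' : hh ε (N t) (D t) (L t) = 0 := h0
        rw [h0']
        simp
    · intro t
      by_cases ht : t ∈ P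
      · simp only [ht, if_true]
        exact (hf1 _ (hu1 t ht).1).2
      · simp only [ht, if_false]
        intro r r' γ h
        exact absurd h (by simp)
    · intro t r γ h
      by_cases ht : t ∈ P
      · simp only [ht, if_true] at h
        obtain ⟨h1, _, h3⟩ := hf2 _ (hu1 t ht).1 r γ h
        have h4 : C' (pos t) r = if r ∈ N t then L₀ t r else ∅ := by
          simp only [C', (hu1 t ht).2, Option.elim_some]
        rw [h4] at h1
        by_cases hr : r ∈ N t
        · rw [if_pos hr] at h1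
          exact ⟨hr, h1, h3⟩
        · rw [if_neg hr] at h1
          exact absurd h1 (Finset.notMem_empty _)
      · simp only [ht, if_false] at h
        exact absurd h (by simp)
    · intro t t' r γ h h'
      by_cases ht : t ∈ P
      · by_cases ht' : t' ∈ P
        · simp only [ht, ht', if_true] at h h'
          by_contra hne
          have hpp : pos t ≠ pos t' := by
            intro hpp
            have h1 := (hu1 t ht).2
            rw [hpp, (hu1 t' ht').2] at h1
            exact hne (Option.some_injective _ h1).symm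
          exact hf3 _ (hu1 t ht).1 _ (hu1 t' ht').1 hpp r γ h h'
        · simp only [ht', if_false] at h'
          exact absurd h' (by simp)
      · simp only [ht, if_false] at h
        exact absurd h (by simp)
    · intro r γ
      rcases hX r γ with h | ⟨h1, h2⟩
      · exact Or.inl h
      · refine Or.inr ⟨h1, le_trans ?_ h2⟩
        have h3 := hC1 r γ
        have h4 : 0 ≤ 1 + ε / 4 := by linarith
        have h5 := mul_le_mul_of_nonneg_left h3 h4
        linarith
    · intro i
      have := hlin (Sum.inl i) (le_refl _)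
      rw [tp_lin_one] at this
      exact this
    · intro t r hr
      have := hlin (Sum.inr (Sum.inl (t, r))) (le_refl _)
      simp only [a', s'] at this
      rw [tp_lin_row N L t r hr, tp_lin_row N L t r hr] at this
      simpa [hd.card t r hr] using this
    · intro t γ
      have := hlin (Sum.inr (Sum.inr (Sum.inl (t, γ)))) (le_refl _)
      simp only [a', s'] at this
      rw [tp_lin_col N L t γ, tp_lin_col N L t γ] at this
      simpa [colS, nn] using this
    · intro t γ γ' hne
      have := hcov ⟨(t, γ, γ'), hne⟩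
      simpa [cov, NQ] using this
    · intro i
      have := hedg i
      simpa [edg] using this
  · -- count
    have hQ : (Fintype.card Q : ℝ) ≤ (Fintype.card T : ℝ) * (Fintype.card Γ : ℝ) ^ 2 := by
      have h1 : Fintype.card Q ≤ Fintype.card (T × Γ × Γ) := Fintype.card_subtype_le _
      rw [Fintype.card_prod, Fintype.card_prod] at h1
      have h2 : (Fintype.card Q : ℝ) ≤
        ((Fintype.card T * (Fintype.card Γ * Fintype.card Γ) : ℕ) : ℝ) := by exact_mod_cast h1
      refine h2.trans (le_of_eq ?_)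
      push_cast
      ring
    have hI : (Fintype.card (I ⊕ (T × R) ⊕ (T × Γ) ⊕ T) : ℝ) =
        Fintype.card I + (Fintype.card T * Fintype.card R +
          (Fintype.card T * Fintype.card Γ + Fintype.card T)) := by
      simp [Fintype.card_sum, Fintype.card_prod]
    rw [hI]
    have := hd.count
    linarith
  · intro j hj
    obtain ⟨t, ht, hu, _⟩ := hu2 j hj
    simp only [D', hu, Option.elim_some]
    exact tp_D hε hε1 hLN (hd.large t)
  · intro j r hr
    cases hu : u j with
    | none => simp [C', hu]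
    | some t =>
      have h1 : r ∉ N t := by
        simpa [N', hu] using hr
      simp [C', hu, h1]
  · intro r
    have h1 := hrow1 r
    have h2 := hd.slack r
    linarith
  · intro r γ
    right
    norm_num
  · intro r γ
    have h3 := (hC1 r γ).trans (hslack r γ)
    have h4 : 0 ≤ 1 + ε / 4 := by linarith
    have h5 := mul_le_mul_of_nonneg_left h3 h4
    have h6 : 1 / (2 / ε) = ε / 2 := by field_simp
    rw [h6]
    nlinarith
  · rintro (i | q | q | t) r γ
    · exact hd.a_nonneg i r γ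
    · simp only [a', tp_row]; split_ifs <;> norm_num
    · simp only [a', tp_col]; split_ifs <;> norm_num
    · simp only [a', tp_res]; split_ifs <;> positivity
  · rintro (i | q | q | t)
    · exact hd.a_sum i
    · simp only [a', s']
      rw [← tp_lin_one]
      by_cases hr : q.2 ∈ N q.1
      · rw [tp_lin_row N L q.1 q.2 hr]
        simp [hd.card q.1 q.2 hr]
      · have h0 : lin (tp_row N L q.1 q.2) (fun _ _ => (1 : ℝ)) = 0 := by
          unfold lin tp_row
          refine Finset.sum_eq_zero fun r _ => Finset.sum_eq_zero fun γ _ => ?_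
          rw [if_neg, zero_mul]
          rintro ⟨h1, h2, _⟩
          rw [h1] at h2
          exact hr h2
        rw [h0]
        exact (hDpos q.1).le
    · simp only [a', s']
      rw [← tp_lin_one, tp_lin_col]
      unfold colS
      rw [Finset.sum_const, nsmul_eq_mul, mul_one]
      have h1 : ((N q.1).filter (fun r => q.2 ∈ L q.1 r)).card ≤ D q.1 :=
        (Finset.card_filter_le _ _).trans (hd.rows q.1)
      exact_mod_cast h1
    · simp only [a', s']
      rw [← tp_lin_one, tp_lin_res]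
      have h1 : ∑ r ∈ N t, ∑ γ ∈ L₀ t r, (1 : ℝ) = ((N t).card : ℝ) * (H t : ℝ) := by
        rw [Finset.sum_congr rfl (g := fun _ => (H t : ℝ))]
        · rw [Finset.sum_const, nsmul_eq_mul]
        · intro r hr
          rw [Finset.sum_const, nsmul_eq_mul, mul_one, hL₀c t r hr]
      rw [h1]
      have h2 : ((N t).card : ℝ) ≤ D t := by exact_mod_cast hd.rows t
      by_cases h0 : (H t : ℝ) = 0
      · rw [h0]
        simp
      · have h3 : 1 / (H t : ℝ) * (((N t).card : ℝ) * (H t : ℝ)) = (N t).card := by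
          field_simp
        rw [h3]
        exact h2
  · rintro (i | q | q | t)
    · exact tp_large hε hLN (hd.sI_large i)
    · exact tp_large hε hLN (hd.large q.1)
    · exact tp_large hε hLN (hd.large q.1)
    · exact tp_large hε hLN (hd.large t)
  · rintro (i | q | q | t) j hj hje f hG hI hC
    · exact hd.a_one i f hI
    · exact tp_row_one N L q.1 q.2 f
    · exact tp_col_one N L q.1 q.2 f hI
    · by_cases ht : t ∈ P
      · have hje' : j < pos t := by simpa [e', ht] using hje
        obtain ⟨t', ht', hu', hp'⟩ := hu2 j hj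
        have h1 := hG t' hu'
        have h2 := hu4 t' ht' t ht (by omega)
        exact tp_res_one N L₀ H t f (by omega) ((hPmem t).1 ht)
      · simp [e', ht] at hje
  · intro q
    exact q.2
  · intro q
    have h1 : (NQ q).card ≤ D q.1.1 := (Finset.card_filter_le _ _).trans (hd.rows q.1.1)
    exact_mod_cast h1
  · intro q
    exact tp_large hε hLN (hd.large q.1.1)
  · intro j hj X hX _ hlin hcov hedg
    obtain ⟨t, ht, hu, hp⟩ := hu2 j hj
    have hD12 : (2 : ℝ) ^ 70 ≤ ε ^ 12 * D t := tp_12 hε hε1 hLN (hDpos t).le (hd.large t)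
    have hHt : 0 < H t := (hPmem t).1 ht
    have hHt' : (0 : ℝ) < H t := by exact_mod_cast hHt
    have h1 : ∀ γ, |colS (N t) (L t) X γ - nn (N t) (L t) γ| ≤ dl ε * D t := by
      intro γ
      have := hlin (Sum.inr (Sum.inr (Sum.inl (t, γ)))) hj.le
      simp only [a', s'] at this
      rw [tp_lin_col N L t γ, tp_lin_col N L t γ] at this
      simpa [colS, nn] using this
    have h2 : (((N t).card : ℝ) - dl ε * D t) * H t ≤ ∑ r ∈ N t, ∑ γ ∈ L₀ t r, X r γ := by
      have h3 := hlin (Sum.inr (Sum.inr (Sum.inr t))) (by simp [e', ht, hp])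
      simp only [a', s'] at h3
      rw [tp_lin_res, tp_lin_res] at h3
      have h4 : ∑ r ∈ N t, ∑ γ ∈ L₀ t r, (1 : ℝ) = ((N t).card : ℝ) * (H t : ℝ) := by
        rw [Finset.sum_congr rfl (g := fun _ => (H t : ℝ))]
        · rw [Finset.sum_const, nsmul_eq_mul]
        · intro r hr
          rw [Finset.sum_const, nsmul_eq_mul, mul_one, hL₀c t r hr]
      rw [h4] at h3
      have h5 : 1 / (H t : ℝ) * (((N t).card : ℝ) * (H t : ℝ)) = (N t).card := by
        field_simp
      rw [h5, abs_le] at h3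
      have h6 := h3.1
      have h7 : ((N t).card : ℝ) - dl ε * D t ≤
          1 / (H t : ℝ) * ∑ r ∈ N t, ∑ γ ∈ L₀ t r, X r γ := by linarith
      have h8 := mul_le_mul_of_nonneg_right h7 hHt'.le
      refine h8.trans (le_of_eq ?_)
      field_simp
    obtain ⟨y, p, hc⟩ := hPRE R Γ ε (N t) (D t) (L t) (L₀ t) X hε hε1 (hd.rows t) (hd.card t)
      hD12 (tp_hh_pos hHt) (hL₀ t) (hL₀c t) hX h1 h2
    refine ⟨y, p, ?_⟩
    have hDj : D' j = D t := by simp [D', hu]
    have hCj : C' j = fun r => if r ∈ N t then L₀ t r else ∅ := by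
      funext r
      simp [C', hu]
    rw [hDj, hCj]
    exact ⟨hc.dist, hc.marg, hc.inj, fun f hf t' ht' => by
      rw [hu] at ht'
      rw [← Option.some_injective _ ht']
      exact hc.good f hf, hc.nonneg, hc.le, hc.supp⟩

end Pool.Agent.Helper21.LQ
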